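import Mathlib
import Pool.Agent.KTT.Main

/-!
# The Tate conjecture for varieties of `Kum^n`-type, their products and open subvarieties

The theorem of this file is the algebraic part of a proof of the following statement; this comment
contains the geometric part.

THEOREM. Let `k` be a finitely generated field of characteristic `0`, `ℓ` a prime number. Let `A` be
an abelian variety over `k` which over the algebraic closure of `k` is isogenous to one of:
(1) an abelian variety of dimension at most `5` with no simple factor of dimension `4` with
    endomorphism ring `ℤ`, or a power of it;
(2) a product of abelian fourfolds of Weil type with discriminant `1`, for any imaginary quadratic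
    fields, among which those of the CM class (2.5) are isogenous to each other.
Let `U` be a smooth `k`-variety such that, after a finite extension of `k`, there is a smooth
projective variety `Y` whose homological motive belongs to the thick tensor category `⟨h(A)⟩` and a
proper, surjective and generically finite morphism `U' → U`, `U'` open in `Y`. Then `T^i(U)` holds
for all `i`, and every Hodge class in `H^(2i)(U, ℚ)(i)` is algebraic. This applies to all open
subvarieties `U` of all products `X_1 × ⋯ × X_r` of

* projective varieties of `Kum^n`-type, for all `n ≥ 2`, in particular to all powers of each of them;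
* K3 surfaces, varieties of `K3^[n]`-type and resolutions of singular `OG6` varieties whose
  transcendental lattice embeds over `ℚ` into `U^3 + ⟨-a⟩`;
* abelian varieties as in (1), (2) (with the condition on the CM class in the case of more than one
  factor), and to the smooth parts of the quotients of such products by finite groups.

Known before: `Kum^n` for `n = 2` (Floccari and Varesco) and `n = 3` (Floccari); for every `n` the
classes in the subalgebra generated by `H^2(X)` (Floccari and Varesco); all powers of one Weil
fourfold of discriminant `1` (Floccari and Fu 2025); an abelian variety of dimension at most `5`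
itself, not its powers (Moonen and Zarhin, Markman 2025).

Conventions. All motives are homological motives with rational coefficients, `B = h(A)`, `⟨B⟩` is the
smallest full subcategory which contains `B` and is closed under direct sums, tensor products, duals
and direct summands. `G` is the Galois group of `k`.

## 1. What is used

(1.1) `h(X)` is in `⟨h(J^3(X))⟩` for every projective `X` of `Kum^n`-type over the complex numbers:
this is the theorem whose algebraic part is `Pool.Agent.KMN.thick_of_kummer` and whose geometric part
is in the comment of the file `Results/MP_54b9c8_ag/KummerType.lean`; see there for the meaning of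
the fields of `KummerMotive` and for the references (Markman, O'Grady, Voisin, Nieper-Wisskirchen,
Lehn, Sorger, Haiman, Bridgeland, King, Reid, Krug, Mukai, Beckmann, Verbitsky). `J^3(X)` is an
abelian fourfold of Weil type with discriminant `1` (O'Grady 2021, Markman 2023).

(1.2) Descent. The finitely many correspondences which show that `h(X)` is in `⟨h(A)⟩`, and `A`, live
over a finitely generated extension of an algebraic closure `K` of `k`; spread `A` out over a
`K`-variety and specialise: the cohomology classes do not change, so `h(X)` is in `⟨h(A)⟩` over `K`,
for some abelian fourfold `A` of Weil type with discriminant `1` over `K`, and so over a finite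
extension of `k`. If `k'` is a finite extension of `k` and `T^i` holds for `U` over `k'`, it holds
for `U` over `k` (average over the conjugates).

(1.3) The Weil classes are algebraic on every abelian fourfold of Weil type with discriminant `1`
(Markman, JEMS 2023), and on all abelian fourfolds of Weil type and all abelian sixfolds of Weil type
with discriminant `-1` (Markman, arXiv 2502.03415), for all imaginary quadratic fields. Hodge classes
of degree two are algebraic (Lefschetz). Homological and numerical equivalence coincide on abelian
varieties in characteristic `0` (Lieberman), so `⟨B⟩` is semisimple (Jannsen): every morphism `f` has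
a `g` with `f g f = f`.

(1.4) The Mumford-Tate conjecture holds for abelian varieties of dimension at most three (Serre,
Ribet, Chi), for simple ones of dimension five (Ribet, Tankeev) and of dimension four with
endomorphism ring not `ℤ` (Moonen and Zarhin 1995), for Weil fourfolds of discriminant `1` also by
André 1996 (`H^2` of hyper-Kähler varieties), and for products of varieties for which it holds
(Commelin 2019). If a simple fourfold has endomorphism ring `ℤ`, then its `ℓ`-adic group is minuscule and
symplectic of rank eight, so it is `GSp_8` or of type `SL_2^3` (Mumford's type, excluded); in the first case the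
Mumford-Tate group is `GSp_8` too. `H^1(A, ℚ_ℓ)` is semisimple (Faltings), hence all its tensor powers are.

(1.5) Irreducible Hodge structures of K3 type (Zarhin): `E = End(T)` is totally real and
`dim_E T ≥ 3`, the Hodge group is `SO_E(T)`, or `E` is a CM field and the Hodge group is `U_E(T)`.

## 2. The Hodge conjecture for all powers of `A`

(2.1) Let `A` be an abelian fourfold of Weil type with discriminant `1` (special ones included), `K`
the imaginary quadratic field, `W = H^1(A, ℚ)`, a hermitian `K`-space of dimension `4`, signature
`(2, 2)` and discriminant `1`, `S = SU(W)`. Over the complex numbers `S = SL_4` and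
`H^1(A) = U + U*`. Let `V` be the rational quadratic space of rank `6` with `V ⊗ K = Λ^2_K W`;
`S → SO(V)` has the kernel `±1`; `V(1)` is a Hodge structure of type `(1, 4, 1)`. Let `M ⊆ S` be the
Hodge group of `A`; it contains `-1`.

(a) Every `S`-invariant tensor of `H^1(A)` is algebraic: by the first fundamental theorem for `SL_4`
these are generated by the contractions of `U` with `U*`, which are Hodge classes of degree two, and
the determinants of `U` and `U*`, the Weil classes (as tensors: the component of type `(1, 1, 1, 1)`
of the pull back of the Weil classes under the sum `A^4 → A`).

(b) As `-1` is in `M`, only even tensors matter. `-1` acts trivially on `H^1(A) ⊗ H^1(A)`, so this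
is a representation of `SO(V)` and a direct summand of a sum of tensor powers of `V`, by `S`-maps,
which are algebraic by (a). So it suffices that the `M`-invariant tensors of `V` are algebraic.
`V = T + N`, where `N` consists of divisor classes and `T` is the transcendental part, irreducible
of K3 type or zero. So it suffices to consider invariant tensors of `T` under the Hodge group of `T`.

(c) `E = ℚ`: invariants of `SO(T)`: generated by the quadratic form (algebraic by (a)) and a
generator of the top exterior power of `T`; contract the top exterior power of `V` (algebraic by
(a)) with the top exterior power of `N`.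

(d) `E` real quadratic. Then `T = V`, `dim_E T = 3`; over the complex numbers `M` is the image of
`SL_2 × SL_2` and `U = S_1 ⊗ S_2 = U*`, `H^1(A) = U ⊗ ℂ^2`, `End(A) ⊗ ℂ` is the algebra of
endomorphisms of `ℂ^2`, and `M` acts through `SO(U)`. The invariants of `SO_4` are generated by the
form (so we get Hodge classes of degree two) and the determinant `δ` of `U`. The Weil classes are
`δ ⊗ e_1^4` and `δ ⊗ e_2^4`; the action of `End(A)` on the four factors of `A^4` gives all
`δ ⊗ x`, `x` in `(ℂ^2)^(⊗ 4)`.

(e) `E` a CM field: the invariants of `U_E(T)` are generated by `E`, that is by the Hodge classes in
`T ⊗ T`. Over the complex numbers `T` is the sum of the `T_τ`, `τ : E → ℂ`, and `V = Λ^2 U`. Each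
`T_τ` is a sum of products of isotypic components of `U` for `M`, whose projectors are in
`End(A) ⊗ ℂ`: rank `6`, `E` quadratic: `U = χ + P`, `T = χ P + Λ^2 P`; rank `4`, `E` quadratic:
`U = χ + χ^(-1) + P`, `dim P = 2`, `T = χ P + χ^(-1) P`; rank `2`: `A` is isogenous to a power of an
elliptic curve; rank `4`, `[E : ℚ] = 4`: the weights of `U` are `±(t_1 + t_2)/2`, `±(t_1 - t_2)/2`,
those of `T` are `± t_1`, `± t_2`; rank `6`, `[E : ℚ] = 6`: the weights of `U` are
`(± t_1 ± t_2 ± t_3)/2` with an even number of minus signs, and `t_1` is the sum of two of them in
only one way. QED

(2.2) Simple `X` of dimension at most five, not of Mumford's type. Hodge algebras: `sl_2`, `u(1)`;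
`sp_4`, `Res sl_2`, `sl_1(B)`, tori; `sp_6`, `Res sl_2`, `u(2,1)`, tori; `sp_10`, `Res sl_2`,
`u(p,q)`, `p + q = 5`, tori: all powers generated by divisors. Dimension four: `sp_8`, `Res sp_4`,
`Res sl_2`, type II: `sp_4`, `Res sl_2`; type III: `SO_4` as in (d); type IV: `u(3,1)`; `su(2,2)`;
`E` quartic with `u_E((2,0),(1,1))`; `E` octic: a torus of rank four, or of rank three, and then the
only relation of the weights `±l_1, …, ±l_4` is `l_1 + ⋯ + l_4 = 0`, and the stabiliser of
`{l_1, …, l_4}` defines an imaginary quadratic subfield, the only one, for which this is the Weil
relation. By the
first fundamental theorem, in each case all invariants on all powers are generated by classes of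
degree two and Weil classes (and their images under `End(X)` acting factor by factor).

(2.3) Products of dimension at most five. Semisimple parts can be identified only if they are forms
of `sl_2` or `sp_4` acting by the standard representation, which gives classes of degree two. The
central characters have only the relations given by elliptic curves `E_K` and factors `X` with `K` in
`End(X)`: `det W = (p - q) χ_K`, `W` the `K`-eigenspace of `H^1(X)` and `(p, q)` the signature:
dimension `3`, `(2, 1)`: the Weil class of the fourfold `X × E_K`; dimension `4`, `(3, 1)`: the Weil
class of the sixfold `X × E_K^2`; the hermitian form of `E_K^2` is an arbitrary positive definite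
one, so the discriminant can be made `-1`. Two different quartic CM surfaces are independent: the
types of a `D_4` field and its reflex field give independent vectors. (The same proof allows any
number of further elliptic curves and of surfaces and threefolds without complex multiplication.)

(2.4) Products as in (2). The Lie algebras of the Hodge groups of the `A_j`, by the transcendental
part `T_j` of `V_j`: rank `6`, `E = ℚ`: `sl_4`; rank `5`: `sp_4`; rank `4`: `sl_1(B') + sl_1(B'')` or
`Res_F sl_1(B)` with `B` split at both places, `U = (2,1) + (1,2)`; rank `3`: `sl_1(B)`, `U = 2 + 2`;
`E` real quadratic: `Res_E sl_1(B)`, `B` split at one place, `U = 2 ⊗ 2`; `E` imaginary quadratic: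
`U = χ + P`, `det P = χ^(-1)`, or `U = χ + χ^(-1) + 2`, or `2 χ + 2 χ^(-1)`. An identification of
simple factors (Goursat) of the types `sl_4`, `sp_4`, mixed `Res sl_1(B)` gives an isogeny
`A_i ~ A_j`; of the types with `U ∋ 2` it gives isomorphic constituents; of the type `sl_3` it gives
`P_i = P_j ψ` with `3 ψ = χ_j - χ_i`: if `χ_i = χ_j` an isogeny, and if `χ_i = -χ_j` the Hodge weight
of `ψ` would be `±1/3`, impossible. The characters `χ_K` for different `K` are independent. The
invariants are generated by contractions, determinants (Weil classes of the `A_j`), pairs
`χ χ^(-1)`, `det P χ` (Weil class of `A_j`) and `det P_c det P_c'^*`, the contraction of two of these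
with `χ χ^(-1)`. QED

(2.5) CM class: `dim_E T = 1`, and `E` is quartic and not biquadratic, or sextic. With one isogeny
class `A_0` of this kind the relations of characters are those of `A_0` and `l_0 = ± χ_K`. (For
several classes: if `L'` is the reflex field of a non Galois quartic CM field there are CM surfaces
with `T(S_1) = H^1(S_3) ⊗ H^1(S_4)` over `L'`, and three conjugate `T` for a sextic field `K F`, `F`
cubic and not Galois, satisfy a relation: Weil classes for fields of degree four and six.)

## 3. The Tate conjecture for all powers of `A`

By (1.4) the classes in `H^(2i)(A^r)(i)` invariant under an open subgroup of `G` are the linear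
combinations of Hodge classes, and `T^i(A^r)` holds for all `i` and `r`, over every finitely
generated field. (For one Weil fourfold of discriminant `1`: `V(1)` is, up to classes of divisors,
`H^2(X)(1)` of a variety of `Kum^2`-type. `MT(A)` is connected and maps with finite kernel to
`Hg(V) × 𝔾_m`; `G_ℓ(A)^0` is contained in `MT(A)` (Deligne, Borovoi, Piatetski-Shapiro), maps onto
`Hg(V)` (André) and contains the homotheties (Bogomolov), so it is `MT(A)`.) In Lean: `words`.
(`B^∨` is a twist of `B`, so the tensor words in `B` and its duals are the twists of the `h(A^r)`.
Coefficients may be extended from `ℚ_ℓ` to its algebraic closure `F`; `KummerMotive` needs the roots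
of unity of order `N`.)

## 4. From `A` to all smooth `U` (this is the Lean part)

`C` is the category of homological motives over `k`, `H` the `ℓ`-adic realisation. Every object of
`⟨B⟩` is a direct summand of a sum of tensor words. `T` and semisimplicity pass to sums and direct
summands. So `T` holds for all objects of `⟨B⟩`, to which `h(X)` belongs by (1.1).

Second part: `U' → U` proper, surjective and generically finite of degree `deg` over `k'`, `U'` open
in a smooth projective `Y_0`, `Y = h(Y_0)(i)`. `H^(2i)(U')(i)` has weights `≥ 0`, and its part of
weight `0` is the image of `H^(2i)(Y_0)(i)`, so the invariants of `G` are in this image (Deligne;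
Jannsen, Mixed motives and algebraic K-theory, section 7). By semisimplicity they are images of
invariants, that is of algebraic classes. `up` is the pull back, `down` the push-forward, followed by
the trace to `k`, and `down (up v) = deg v` on the Tate classes over `k`.

The same theorem, with the Mumford-Tate group for `G`, gives the Hodge conjecture for `U`.

## 5. Complement: finite fields

Let `X_0` be a smooth projective variety over a finite field of characteristic `p ≠ ℓ` which is a
reduction of a variety of `Kum^n`-type in characteristic `0`. `A = J^3` has potentially good
reduction `A_0` (the kernel of `S → SO(V)` is finite and `V` is unramified), and by specialisation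
`h(X_0)` is in `⟨h(A_0)⟩` and the `S`-invariant tensors are algebraic. `T` holds for `H^1 ⊗ H^1`
(Tate) and Frobenius `φ` is semisimple (Weil). So, after a finite extension, `V(1) = T + N`, `N` the
invariants of `φ`, divisor classes, and `φ` has no eigenvalue on `T` which is a root of unity. The
slopes of `φ` on `V(1)` are `-1/h`, `0`, `1/h` (`h` times `±1/h`), or `T = 0` and all is clear. The
slope `-1/h` part is a simple isocrystal, so the characteristic polynomial of `φ` on `T` is `P^e`,
`P` irreducible, `E = ℚ[t]/P` is a CM field of degree `2 s`, `e s ≤ 3`, and there is one place `v`
with `v(α) < 0`, of degree `h/e`. Let `Γ` be the Galois group of the closure of `E`, `I` the set of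
the `2 s` embeddings, `D` the set of those which give `v` for a fixed place of the closure. If
`∏ α_i^(n_i) = 1`, `n` odd under complex conjugation, then the sum of the `n_i` over each `g D` is
`0`; and the sets `g D` separate the elements of `I` (`α^m` generates `E` for all `m > 0`). If
`s = 1` or `|D| = 1`: `n = 0`. `s = 2`, `|D| = 2`: `{1, 2}` and `{1, -2}` occur, `n = 0`. `s = 3`:
the solutions form a `Γ`-stable space `L`. `dim L = 2`: then all `g D` are `± D`, impossible.
`dim L = 1`: all `|n_i|` are equal, so `|D| = 2` and, up to the names, `α_1 α_2 α_3 = 1`. Then the
eigenvalues of `φ` on `U` are (up to `√q`) `1, α_1, α_2, α_3` (or the inverses), and the invariant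
tensor `e_1 ∧ e_2 ∧ e_3` of `Λ^3 V` is the square of the first eigenvector, a Tate class in
`H^1 ⊗ H^1`, so algebraic; the projectors to the eigenspaces (polynomials in `φ`) give all
`e_i ⊗ e_j ⊗ e_k`. If `e = 1`, the contractions are components of the form of `V`. `e = 2`: then
`s = 1`, `U = χ + χ^(-1) + 2·1`, `T = χ (2·1) + χ^(-1) (2·1)`, and the tensors in
`T_χ ⊗ T_(χ^(-1))` are products of invariants of degree two. So `T` holds for all words (and then
numerical and `ℓ`-adic homological equivalence coincide on `⟨B⟩`), except perhaps if `h = e = 3`;
this case is contained in section 6 of the comment of the file `AbelianProducts.lean` in this folder.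
So `T^i(U)` holds for all smooth `U` dominated by open subvarieties of powers of `X_0`.

## 6. Other examples (constructor `spanned` of `Gen`)

`B = h^2(X)`, `X` of `K3^[n]`-type with `End(T(X))` a CM field: `T` and the Hodge conjecture for all
words in `B` follow from Markman (rational isometries are algebraic), Zarhin and André, and
`H^*(X)` is spanned by images of words in `B` (Markman, Charles and Markman). This is routine.
-/

namespace Pool.Agent.Results.MP_2a05c8_ag.KummerTate

open Pool.Agent.KMN Pool.Agent.KTT CategoryTheory MonoidalCategory Limits

universe v u w w'

theorem result (C : Type u) [Category.{v} C] [Preadditive C] [HasBinaryBiproducts C]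
    [MonoidalCategory C] [MonoidalPreadditive C] [RightRigidCategory C]
    (F : Type w) [Field F] [CharZero F]
    (H : C ⥤ ModuleCat.{w} F) [H.Additive] [H.Monoidal] [H.Faithful]
    (G : Type w') [Group G] (ρ : G →* Aut H) (B : C)
    (reg : ∀ M M' : C, Thick B M → Thick B M' → ∀ f : M ⟶ M', ∃ g : M' ⟶ M, f ≫ g ≫ f = f)
    (words : ∀ W : C, Word B W → fixed H ρ W ≤ alg H W ∧ Semisimple H ρ W)
    (Y : C) (hY : Gen H B Y) :
    (fixed H ρ Y ≤ alg H Y ∧ Semisimple H ρ Y) ∧
    -- smooth varieties `U`, `V = H^(2i)(U)(i)`, dominated by an open part `U'` of `Y`,
    -- `V' = H^(2i)(U')(i)`
    ∀ (V' : Type w) [AddCommGroup V'] [Module F V'] (act : G → V' →ₗ[F] V')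
      (res : H.obj Y →ₗ[F] V'), (∀ g v, res (((ρ g).hom.app Y).hom v) = act g (res v)) →
      (∀ v, (∀ g, act g v = v) → v ∈ LinearMap.range res) →
      ∀ (V : Type w) [AddCommGroup V] [Module F V] (tate cyc : Submodule F V)
        (up : V →ₗ[F] V') (down : V' →ₗ[F] V) (deg : F),
        (∀ v ∈ tate, ∀ g, act g (up v) = up v) → (∀ v ∈ alg H Y, down (res v) ∈ cyc) →
        deg ≠ 0 → (∀ v ∈ tate, down (up v) = deg • v) → tate ≤ cyc := by
  have h := main H ρ B reg words Y hY
  refine ⟨h, ?_⟩
  intro V' _ _ act res h1 h2 V _ _ tate cyc up down deg h3 h4 h5 h6
  exact covered_tate H ρ Y h.1 h.2 V' act res h1 h2 V tate cyc up h3 down h4 deg h5 h6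

end Pool.Agent.Results.MP_2a05c8_ag.KummerTate
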